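import Mathlib

/-! # Sums of dilates: product sets -/

namespace Pool.Agent.T6.H59.FD

open Finset

/-- `X + c Y` for finite sets of natural numbers. -/
def ss (c : ℕ) (X Y : Finset ℕ) : Finset ℕ := (X ×ˢ Y).image (fun p => p.1 + c * p.2)

theorem mem_ss {c : ℕ} {X Y : Finset ℕ} {z : ℕ} :
    z ∈ ss c X Y ↔ ∃ x ∈ X, ∃ y ∈ Y, x + c * y = z := by
  unfold ss
  simp only [mem_image, mem_product, Prod.exists]
  constructor
  · rintro ⟨a, b, ⟨ha, hb⟩, h⟩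
    exact ⟨a, ha, b, hb, h⟩
  · rintro ⟨a, ha, b, hb, h⟩
    exact ⟨a, b, ⟨ha, hb⟩, h⟩

theorem card_ss_le (c : ℕ) (X Y : Finset ℕ) : (ss c X Y).card ≤ X.card * Y.card := by
  unfold ss
  exact card_image_le.trans (card_product X Y).le

theorem card_ss_eq {B : ℕ} {X : Finset ℕ} (Y : Finset ℕ) (hB : ∀ x ∈ X, x < B) :
    (ss B X Y).card = X.card * Y.card := by
  unfold ss
  rw [card_image_of_injOn, card_product]
  rintro ⟨x, y⟩ h ⟨x', y'⟩ h' e
  simp only [coe_product, Set.mem_prod, mem_coe] at h h'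
  simp only at e
  have h1 := hB x h.1
  have h2 := hB x' h'.1
  have hB0 : 0 < B := by omega
  have e1 : (x + B * y) % B = (x' + B * y') % B := by rw [e]
  rw [Nat.add_mul_mod_self_left, Nat.add_mul_mod_self_left, Nat.mod_eq_of_lt h1,
    Nat.mod_eq_of_lt h2] at e1
  subst e1
  have e2 : B * y = B * y' := by omega
  have e3 := Nat.eq_of_mul_eq_mul_left hB0 e2
  rw [e3]

theorem ss_ss (B c : ℕ) (X Y X' Y' : Finset ℕ) :
    ss c (ss B X Y) (ss B X' Y') = ss B (ss c X X') (ss c Y Y') := by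
  ext z
  simp only [mem_ss]
  constructor
  · rintro ⟨_, ⟨x, hx, y, hy, rfl⟩, _, ⟨x', hx', y', hy', rfl⟩, rfl⟩
    exact ⟨x + c * x', ⟨x, hx, x', hx', rfl⟩, y + c * y', ⟨y, hy, y', hy', rfl⟩, by ring⟩
  · rintro ⟨_, ⟨x, hx, x', hx', rfl⟩, _, ⟨y, hy, y', hy', rfl⟩, rfl⟩
    exact ⟨x + B * y, ⟨x, hx, y, hy, rfl⟩, x' + B * y', ⟨x', hx', y', hy', rfl⟩, by ring⟩

/-- Three sets with the eight bounds of the vector `v`. -/
def Sys (v : Fin 8 → ℕ) : Prop :=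
  ∃ X0 X1 X2 : Finset ℕ, v 0 ≤ X0.card ∧ v 1 ≤ (ss 2 X1 X2).card ∧
    (ss 1 X0 X0).card ≤ v 2 ∧ (ss 1 X0 X1).card ≤ v 3 ∧ (ss 1 X0 X2).card ≤ v 4 ∧
    (ss 1 X1 X1).card ≤ v 5 ∧ (ss 1 X1 X2).card ≤ v 6 ∧ (ss 1 X2 X2).card ≤ v 7

theorem Sys.mul {v w : Fin 8 → ℕ} (hv : Sys v) (hw : Sys w) : Sys (v * w) := by
  obtain ⟨X0, X1, X2, h0, h1, h2, h3, h4, h5, h6, h7⟩ := hv
  obtain ⟨Y0, Y1, Y2, k0, k1, k2, k3, k4, k5, k6, k7⟩ := hw
  obtain ⟨B, hB⟩ : ∃ B : ℕ, ∀ x ∈ X0 ∪ ss 2 X1 X2, x < B :=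
    ⟨(X0 ∪ ss 2 X1 X2).sup id + 1, fun x hx => Nat.lt_succ_of_le (le_sup (f := id) hx)⟩
  have up : ∀ X Y X' Y' : Finset ℕ, ∀ a b : ℕ, (ss 1 X X').card ≤ a → (ss 1 Y Y').card ≤ b →
      (ss 1 (ss B X Y) (ss B X' Y')).card ≤ a * b := by
    intro X Y X' Y' a b ha hb
    rw [ss_ss]
    exact (card_ss_le _ _ _).trans (Nat.mul_le_mul ha hb)
  refine ⟨ss B X0 Y0, ss B X1 Y1, ss B X2 Y2, ?_, ?_, ?_, ?_, ?_, ?_, ?_, ?_⟩
  · rw [card_ss_eq Y0 (fun x hx => hB x (mem_union_left _ hx))]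
    exact Nat.mul_le_mul h0 k0
  · rw [ss_ss, card_ss_eq _ (fun x hx => hB x (mem_union_right _ hx))]
    exact Nat.mul_le_mul h1 k1
  · exact up _ _ _ _ _ _ h2 k2
  · exact up _ _ _ _ _ _ h3 k3
  · exact up _ _ _ _ _ _ h4 k4
  · exact up _ _ _ _ _ _ h5 k5
  · exact up _ _ _ _ _ _ h6 k6
  · exact up _ _ _ _ _ _ h7 k7

theorem card_range_le (a b : ℕ) (ha : 0 < a) (hb : 0 < b) :
    (ss 1 (range a) (range b)).card ≤ a + b - 1 := by
  have : ss 1 (range a) (range b) ⊆ range (a + b - 1) := by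
    intro z hz
    rw [mem_ss] at hz
    obtain ⟨x, hx, y, hy, rfl⟩ := hz
    rw [mem_range] at *
    omega
  exact (card_le_card this).trans (card_range _).le

theorem le_card_of_range {m : ℕ} {S : Finset ℕ} (h : ∀ z < m, z ∈ S) : m ≤ S.card := by
  have : range m ⊆ S := fun z hz => h z (mem_range.1 hz)
  exact (card_range m).symm.le.trans (card_le_card this)

theorem sys_one : Sys 1 := by
  refine ⟨{0}, {0}, {0}, ?_, ?_, ?_, ?_, ?_, ?_, ?_, ?_⟩ <;> simp [ss]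

theorem Sys.pow {v : Fin 8 → ℕ} (hv : Sys v) (n : ℕ) : Sys (v ^ n) := by
  induction n with
  | zero => rw [pow_zero]; exact sys_one
  | succ n ih => rw [pow_succ]; exact ih.mul hv

/-- First factor. -/
def G1 : Fin 8 → ℕ := ![3, 1024, 5, 1026, 3, 2047, 1024, 1]
/-- Second factor. -/
def G2 : Fin 8 → ℕ := ![583, 2048, 1165, 600, 1598, 9, 585, 1905]

set_option maxRecDepth 20000 in
theorem sysG1 : Sys G1 := by
  refine ⟨range 3, range 1024, range 1, ?_, ?_, card_range_le 3 3 (by norm_num) (by norm_num),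
    card_range_le 3 1024 (by norm_num) (by norm_num),
    card_range_le 3 1 (by norm_num) (by norm_num),
    card_range_le 1024 1024 (by norm_num) (by norm_num),
    card_range_le 1024 1 (by norm_num) (by norm_num),
    card_range_le 1 1 (by norm_num) (by norm_num)⟩
  · simp [G1]
  · refine le_card_of_range (m := 1024) fun z hz => ?_
    rw [mem_ss]
    exact ⟨z, mem_range.2 hz, 0, mem_range.2 (by norm_num), by ring⟩

theorem card_gap_le (X Y X' Y' : Finset ℕ) (a b : ℕ) (ha : (ss 1 X X').card ≤ a)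
    (hb : (ss 1 Y Y').card ≤ b) : (ss 1 (ss 16 X Y) (ss 16 X' Y')).card ≤ a * b := by
  rw [ss_ss]
  exact (card_ss_le _ _ _).trans (Nat.mul_le_mul ha hb)

set_option maxRecDepth 20000 in
theorem sysG2 : Sys G2 := by
  refine ⟨range 583, ss 16 (range 2) (range 2), ss 16 (range 8) (range 64), ?_, ?_,
    card_range_le 583 583 (by norm_num) (by norm_num), ?_, ?_,
    card_gap_le _ _ _ _ 3 3 (card_range_le 2 2 (by norm_num) (by norm_num))
      (card_range_le 2 2 (by norm_num) (by norm_num)),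
    card_gap_le _ _ _ _ 9 65 (card_range_le 2 8 (by norm_num) (by norm_num))
      (card_range_le 2 64 (by norm_num) (by norm_num)),
    card_gap_le _ _ _ _ 15 127 (card_range_le 8 8 (by norm_num) (by norm_num))
      (card_range_le 64 64 (by norm_num) (by norm_num))⟩
  · simp [G2]
  · refine le_card_of_range (m := 2048) fun z hz => ?_
    rw [mem_ss]
    refine ⟨z % 2 + 16 * (z % 32 / 16), ?_, z % 16 / 2 + 16 * (z / 32), ?_, by omega⟩
    · rw [mem_ss]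
      exact ⟨_, mem_range.2 (by omega), _, mem_range.2 (by omega), rfl⟩
    · rw [mem_ss]
      exact ⟨_, mem_range.2 (by omega), _, mem_range.2 (by omega), rfl⟩
  · have : ss 1 (range 583) (ss 16 (range 2) (range 2)) ⊆ range 600 := by
      intro z hz
      simp only [mem_ss, mem_range] at hz
      obtain ⟨x, hx, _, ⟨y, hy, y', hy', rfl⟩, rfl⟩ := hz
      rw [mem_range]
      omega
    exact (card_le_card this).trans (card_range _).le
  · have : ss 1 (range 583) (ss 16 (range 8) (range 64)) ⊆ range 1598 := by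
      intro z hz
      simp only [mem_ss, mem_range] at hz
      obtain ⟨x, hx, _, ⟨y, hy, y', hy', rfl⟩, rfl⟩ := hz
      rw [mem_range]
      omega
    exact (card_le_card this).trans (card_range _).le

/-- The product of the factors. -/
def V : Fin 8 → ℕ := G1 * G2 ^ 6

theorem sysV : Sys V := sysG1.mul (sysG2.pow 6)

theorem V_ineq : V 4 ^ 11 < V 0 ^ 6 * V 1 ^ 5 := by
  simp only [V, G1, G2, Pi.mul_apply, Pi.pow_apply]
  decide +kernel

theorem V_max : 0 < V 4 ∧ V 2 ≤ V 4 ∧ V 3 ≤ V 4 ∧ V 5 ≤ V 4 ∧ V 6 ≤ V 4 ∧ V 7 ≤ V 4 := by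
  simp only [V, G1, G2, Pi.mul_apply, Pi.pow_apply]
  decide +kernel

/-- From a system to one set. -/
theorem exists_set {v : Fin 8 → ℕ} (hv : Sys v) : ∃ A : Finset ℕ, v 0 ≤ A.card ∧
    v 1 ≤ (ss 2 A A).card ∧ (ss 1 A A).card ≤ v 2 + v 3 + v 4 + v 5 + v 6 + v 7 := by
  obtain ⟨X0, X1, X2, h0, h1, h2, h3, h4, h5, h6, h7⟩ := hv
  refine ⟨X0 ∪ X1 ∪ X2, h0.trans (card_le_card ?_), h1.trans (card_le_card ?_), ?_⟩
  · intro x hx
    exact mem_union_left _ (mem_union_left _ hx)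
  · intro z hz
    rw [mem_ss] at hz ⊢
    obtain ⟨x, hx, y, hy, e⟩ := hz
    exact ⟨x, mem_union_left _ (mem_union_right _ hx), y, mem_union_right _ hy, e⟩
  · have hsub : ss 1 (X0 ∪ X1 ∪ X2) (X0 ∪ X1 ∪ X2) ⊆
        ss 1 X0 X0 ∪ ss 1 X0 X1 ∪ ss 1 X0 X2 ∪ ss 1 X1 X1 ∪ ss 1 X1 X2 ∪ ss 1 X2 X2 := by
      intro z hz
      simp only [mem_union, mem_ss] at hz ⊢
      obtain ⟨x, hx, y, hy, e⟩ := hz
      have e' : y + 1 * x = z := by omega
      rcases hx with (hx | hx) | hx <;> rcases hy with (hy | hy) | hy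
      · exact Or.inl (Or.inl (Or.inl (Or.inl (Or.inl ⟨x, hx, y, hy, e⟩))))
      · exact Or.inl (Or.inl (Or.inl (Or.inl (Or.inr ⟨x, hx, y, hy, e⟩))))
      · exact Or.inl (Or.inl (Or.inl (Or.inr ⟨x, hx, y, hy, e⟩)))
      · exact Or.inl (Or.inl (Or.inl (Or.inl (Or.inr ⟨y, hy, x, hx, e'⟩))))
      · exact Or.inl (Or.inl (Or.inr ⟨x, hx, y, hy, e⟩))
      · exact Or.inl (Or.inr ⟨x, hx, y, hy, e⟩)
      · exact Or.inl (Or.inl (Or.inl (Or.inr ⟨y, hy, x, hx, e'⟩)))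
      · exact Or.inl (Or.inr ⟨y, hy, x, hx, e'⟩)
      · exact Or.inr ⟨x, hx, y, hy, e⟩
    refine (card_le_card hsub).trans ?_
    refine (card_union_le _ _).trans (Nat.add_le_add ?_ h7)
    refine (card_union_le _ _).trans (Nat.add_le_add ?_ h6)
    refine (card_union_le _ _).trans (Nat.add_le_add ?_ h5)
    refine (card_union_le _ _).trans (Nat.add_le_add ?_ h4)
    exact (card_union_le _ _).trans (Nat.add_le_add h2 h3)

theorem card_le_ss {A : Finset ℕ} : A.card ≤ (ss 1 A A).card := by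
  rcases A.eq_empty_or_nonempty with h | ⟨a, ha⟩
  · rw [h]; simp
  · rw [← card_image_of_injective A (add_left_injective a)]
    refine card_le_card fun z hz => ?_
    obtain ⟨x, hx, e⟩ := mem_image.1 hz
    rw [mem_ss]
    exact ⟨x, hx, a, ha, by rw [one_mul]; exact e⟩

/-- For every `C` there is a finite set of natural numbers with
`C |A+A|^11 < |A|^6 |A+2A|^5`. -/
theorem exists_nat (C : ℝ) : ∃ A : Finset ℕ,
    C * ((ss 1 A A).card : ℝ) ^ 11 < (A.card : ℝ) ^ 6 * ((ss 2 A A).card : ℝ) ^ 5 := by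
  obtain ⟨hpos, m2, m3, m5, m6, m7⟩ := V_max
  have hSpos : (0 : ℝ) < (V 4 : ℝ) := by exact_mod_cast hpos
  have hlt : (1 : ℝ) < ((V 0 : ℝ) ^ 6 * (V 1 : ℝ) ^ 5) / (V 4 : ℝ) ^ 11 := by
    rw [one_lt_div (by positivity)]
    exact_mod_cast V_ineq
  obtain ⟨n, hn⟩ := pow_unbounded_of_one_lt (max C 0 * 6 ^ 11) hlt
  obtain ⟨A, h0, h1, h2⟩ := exists_set (sysV.pow n)
  simp only [Pi.pow_apply] at h0 h1 h2
  have h3 : (ss 1 A A).card ≤ 6 * V 4 ^ n := by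
    refine h2.trans ?_
    have a1 := Nat.pow_le_pow_left m2 n
    have a2 := Nat.pow_le_pow_left m3 n
    have a3 := Nat.pow_le_pow_left m5 n
    have a4 := Nat.pow_le_pow_left m6 n
    have a5 := Nat.pow_le_pow_left m7 n
    omega
  refine ⟨A, ?_⟩
  have b0 : ((V 0 : ℝ)) ^ n ≤ A.card := by exact_mod_cast h0
  have b1 : ((V 1 : ℝ)) ^ n ≤ (ss 2 A A).card := by exact_mod_cast h1
  have b2 : ((ss 1 A A).card : ℝ) ≤ 6 * (V 4 : ℝ) ^ n := by exact_mod_cast h3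
  have c1 : C * ((ss 1 A A).card : ℝ) ^ 11 ≤ max C 0 * (6 * (V 4 : ℝ) ^ n) ^ 11 := by
    refine mul_le_mul (le_max_left _ _) ?_ (by positivity) (le_max_right _ _)
    exact pow_le_pow_left₀ (by positivity) b2 11
  have c2 : max C 0 * (6 * (V 4 : ℝ) ^ n) ^ 11 <
      ((V 0 : ℝ) ^ n) ^ 6 * ((V 1 : ℝ) ^ n) ^ 5 := by
    rw [div_pow, lt_div_iff₀ (by positivity)] at hn
    calc max C 0 * (6 * (V 4 : ℝ) ^ n) ^ 11
        = max C 0 * 6 ^ 11 * ((V 4 : ℝ) ^ 11) ^ n := by ring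
      _ < ((V 0 : ℝ) ^ 6 * (V 1 : ℝ) ^ 5) ^ n := hn
      _ = _ := by ring
  have c3 : ((V 0 : ℝ) ^ n) ^ 6 * ((V 1 : ℝ) ^ n) ^ 5 ≤
      (A.card : ℝ) ^ 6 * ((ss 2 A A).card : ℝ) ^ 5 :=
    mul_le_mul (pow_le_pow_left₀ (by positivity) b0 6) (pow_le_pow_left₀ (by positivity) b1 5)
      (by positivity) (by positivity)
  exact (c1.trans_lt c2).trans_le c3

/-- Both inequalities. -/
theorem exists_both (C : ℝ) : ∃ A : Finset ℕ,
    C * ((ss 1 A A).card : ℝ) ^ 11 < (A.card : ℝ) ^ 6 * ((ss 2 A A).card : ℝ) ^ 5 ∧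
    C * ((ss 1 A A).card : ℝ) ^ 2 < (A.card : ℝ) * ((ss 2 A A).card : ℝ) := by
  set D : ℝ := max C 1 with hD
  have hD1 : 1 ≤ D := le_max_right _ _
  have hCD : C ≤ D := le_max_left _ _
  have hDD : D ≤ D ^ 5 := by
    calc D = D ^ 1 := (pow_one D).symm
      _ ≤ D ^ 5 := pow_le_pow_right₀ hD1 (by norm_num)
  obtain ⟨A, hA⟩ := exists_nat (D ^ 5)
  refine ⟨A, lt_of_le_of_lt (mul_le_mul_of_nonneg_right (hCD.trans hDD) (by positivity)) hA, ?_⟩
  have hle : (A.card : ℝ) ≤ ((ss 1 A A).card : ℝ) := by exact_mod_cast card_le_ss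
  have hApos : (0 : ℝ) < (A.card : ℝ) := by
    rcases Nat.eq_zero_or_pos A.card with h | h
    · exfalso
      rw [h] at hA
      have : (0 : ℝ) ≤ D ^ 5 * ((ss 1 A A).card : ℝ) ^ 11 := by positivity
      simp only [Nat.cast_zero, ne_eq, OfNat.ofNat_ne_zero, not_false_eq_true, zero_pow,
        zero_mul] at hA
      linarith
    · exact_mod_cast h
  have h5 : (D * ((ss 1 A A).card : ℝ) ^ 2) ^ 5 < ((A.card : ℝ) * ((ss 2 A A).card : ℝ)) ^ 5 := by
    have e1 : (A.card : ℝ) * (D * ((ss 1 A A).card : ℝ) ^ 2) ^ 5 ≤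
        D ^ 5 * ((ss 1 A A).card : ℝ) ^ 11 := by
      have : (A.card : ℝ) * (D * ((ss 1 A A).card : ℝ) ^ 2) ^ 5 ≤
          ((ss 1 A A).card : ℝ) * (D * ((ss 1 A A).card : ℝ) ^ 2) ^ 5 :=
        mul_le_mul_of_nonneg_right hle (by positivity)
      refine this.trans (le_of_eq (by ring))
    have e2 : (A.card : ℝ) * (D * ((ss 1 A A).card : ℝ) ^ 2) ^ 5 <
        (A.card : ℝ) * ((A.card : ℝ) * ((ss 2 A A).card : ℝ)) ^ 5 := by
      refine (e1.trans_lt hA).trans_le (le_of_eq (by ring))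
    exact lt_of_mul_lt_mul_left e2 hApos.le
  have h1 : D * ((ss 1 A A).card : ℝ) ^ 2 < (A.card : ℝ) * ((ss 2 A A).card : ℝ) :=
    lt_of_pow_lt_pow_left₀ 5 (by positivity) h5
  exact lt_of_le_of_lt (mul_le_mul_of_nonneg_right hCD (by positivity)) h1

end Pool.Agent.T6.H59.FD
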